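import Pool.Agent.Helper568.Dent10
import Pool.Agent.Helper568.Dent18

set_option autoImplicit false

namespace Pool.Agent.Results.MP_dd9902_an.LurDual

open Filter Set Topology Pool.Agent.Helper568.Dent

/-- The dual of every separable Banach space without an isomorphic copy of `ℓ₁` admits an
equivalent locally uniformly rotund norm. -/
theorem result (X : Type*) [NormedAddCommGroup X] [NormedSpace ℝ X] [CompleteSpace X]
    [TopologicalSpace.SeparableSpace X]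
    (hX : ¬ ∃ T : lp (fun _ : ℕ => ℝ) 1 →L[ℝ] X, ∃ c : ℝ, 0 < c ∧ ∀ v, c * ‖v‖ ≤ ‖T v‖) :
    ∃ N : (X →L[ℝ] ℝ) → ℝ,
      (∀ f g : X →L[ℝ] ℝ, N (f + g) ≤ N f + N g) ∧
      (∀ (r : ℝ) (f : X →L[ℝ] ℝ), N (r • f) = |r| * N f) ∧
      (∃ a b : ℝ, 0 < a ∧ 0 < b ∧ ∀ f : X →L[ℝ] ℝ, a * ‖f‖ ≤ N f ∧ N f ≤ b * ‖f‖) ∧
      ∀ (f : X →L[ℝ] ℝ) (g : ℕ → X →L[ℝ] ℝ),
        Tendsto (fun n => 2 * N f ^ 2 + 2 * N (g n) ^ 2 - N (f + g n) ^ 2) atTop (𝓝 0) →
        Tendsto (fun n => N (g n - f)) atTop (𝓝 0) := by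
  obtain ⟨σ, hσ⟩ := exists_surjective_nat (Finset Par)
  have hx := TopologicalSpace.denseRange_denseSeq X
  obtain ⟨N, h1, h2, h3, h4⟩ := lur_of_family (E := X →L[ℝ] ℝ)
    (fun k => VV (TopologicalSpace.denseSeq X) (σ k))
    (fun k f hf => mem_closedBall_zero_iff.2 hf.1) (by
      intro t ht ε hε
      obtain ⟨s, hs1, hs2⟩ := dented (TopologicalSpace.denseSeq X) hx hX t ht ε hε
      obtain ⟨k, rfl⟩ := hσ s
      exact ⟨k, hs1, hs2⟩)
  refine ⟨N, h1, h2, ⟨1, 4, one_pos, by norm_num, fun f => ⟨by rw [one_mul]; exact (h3 f).1, (h3 f).2⟩⟩,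
    fun f g hfg => ?_⟩
  have hN0 : ∀ f, 0 ≤ N f := fun f => (norm_nonneg f).trans (h3 f).1
  have hsq : Tendsto (fun n => (N (g n) - N f) ^ 2) atTop (𝓝 0) := by
    refine squeeze_zero (fun n => sq_nonneg _) (fun n => ?_) hfg
    have h5 := pow_le_pow_left₀ (hN0 _) (h1 f (g n)) 2
    nlinarith
  have hg : Tendsto (fun n => N (g n)) atTop (𝓝 (N f)) := by
    have h5 : Tendsto (fun n => |N (g n) - N f|) atTop (𝓝 0) := by
      have h6 := hsq.sqrt
      rw [Real.sqrt_zero] at h6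
      exact h6.congr fun n => Real.sqrt_sq_eq_abs _
    have h7 := (tendsto_zero_iff_abs_tendsto_zero _).2 h5
    have h8 := h7.add_const (N f)
    simpa using h8
  have hfg2 : Tendsto (fun n => N (f + g n)) atTop (𝓝 (2 * N f)) := by
    have h5 : Tendsto (fun n => 2 * N f ^ 2 + 2 * N (g n) ^ 2 -
        (2 * N f ^ 2 + 2 * N (g n) ^ 2 - N (f + g n) ^ 2)) atTop
        (𝓝 (2 * N f ^ 2 + 2 * N f ^ 2 - 0)) :=
      (tendsto_const_nhds.add ((hg.pow 2).const_mul 2)).sub hfg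
    have h6 : Tendsto (fun n => N (f + g n) ^ 2) atTop (𝓝 ((2 * N f) ^ 2)) := by
      have e : (2 * N f) ^ 2 = 2 * N f ^ 2 + 2 * N f ^ 2 - 0 := by ring
      rw [e]
      refine h5.congr fun n => ?_
      ring
    have h7 := h6.sqrt
    rw [Real.sqrt_sq (by have := hN0 f; positivity)] at h7
    exact h7.congr fun n => Real.sqrt_sq (hN0 _)
  exact h4 f g hg hfg2

end Pool.Agent.Results.MP_dd9902_an.LurDual
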